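import Pool.Agent.T6.H56.TSG.Defs

set_option autoImplicit false

/-! # The classes of germs for the weak version -/

namespace Pool.Agent.T6.H56.TSW

open MvPolynomial Pool.Agent.W574.SM Pool.Agent.W574.RO Pool.Agent.Y229
open Pool.Agent.T6.H26 Pool.Agent.T6.H56.TSG
open Pool.Agent.Y230.TL (WeakHyp)
open Pool.Agent.H628R4.TP (IsLocalBFunction)

/-- The monodromy conjecture for the germ `F` at the origin, with the functions `Z e = Z^(e)`, `e ≥ 1`, in
the reduced form: for all the local functional equations `(s + 1) q(s) F ^ s = P(s) F ^ (s + 1)`, for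
example if `q` is the reduced local Bernstein-Sato polynomial, and for every pole `s₀` of
`(s + 1) Z^(1)` or of `Z^(e)`, `e ≥ 2`, there is an integer `i ≥ 0` with `q(s₀ - i) = 0`. -/
def HoldsW (σ : Type) (F : MvPolynomial σ ℂ) (Z : ℕ → RatFunc ℂ) : Prop :=
  Finite σ ∧ F ≠ 0 ∧ constantCoeff F = 0 ∧
    ∀ q : Polynomial ℂ, IsLocalBFunction F ((Polynomial.X + 1) * q) →
      (∀ s₀ : ℂ, ((RatFunc.X + 1) * Z 1).denom.eval s₀ = 0 → ∃ i : ℕ, q.eval (s₀ - i) = 0) ∧
      ∀ e, 2 ≤ e → ∀ s₀ : ℂ, (Z e).denom.eval s₀ = 0 → ∃ i : ℕ, q.eval (s₀ - i) = 0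

/-- The ideals in the class `WeakD` of `WeightedConesLocal`: the ones in `StrongS`, and the principal
ideals which are generated by the polynomials which are nondegenerate with respect to their Newton
polytope. -/
inductive WeakS : Fam → RatFunc ℂ → Prop
  /-- the germs in `StrongS` -/
  | strong (A : Fam) (Z : RatFunc ℂ) (h : StrongS A Z) : WeakS A Z
  /-- the germs in `WeakLocal` (with finitely many variables) -/
  | weak (A : Fam) (Z : RatFunc ℂ) (hfin : Finite A.σ) (h : WeakLocal A Z) : WeakS A Z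

/-- The hypersurfaces in `WeakHyp`, and the ones in the class `R` with the function `Z^(1)`. -/
inductive HypOfW (R : (σ : Type) → MvPolynomial σ ℂ → (ℕ → RatFunc ℂ) → Prop) :
    Fam → RatFunc ℂ → Prop
  /-- the hypersurfaces in `WeakHyp` -/
  | lib (A : Fam) (Z : RatFunc ℂ) (h : WeakHyp A Z) : HypOfW R A Z
  /-- the hypersurfaces in `R` -/
  | new (σ : Type) (F : MvPolynomial σ ℂ) (Z : ℕ → RatFunc ℂ) (h : R σ F Z) :
      HypOfW R ⟨σ, Fin 1, fun _ => F⟩ (Z 1)

/-- The classes of ideals: `IdW 0` is the class of `WeightedConesLocal`, and `IdW (n + 1)` is the class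
which is obtained in the same way if also the hypersurfaces in `RO (IdW n) HoldsW` are allowed. -/
def IdW : ℕ → Fam → RatFunc ℂ → Prop
  | 0 => fun A Z => ∃ (k : ℕ) (c : Bool), TW WeakS WeakHyp k c A Z
  | n + 1 => fun A Z => ∃ (k : ℕ) (c : Bool), TW WeakS (HypOfW (RO (IdW n) HoldsW)) k c A Z

end Pool.Agent.T6.H56.TSW
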