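import Pool.Agent.T6.H56.TSG.POW
import Pool.Agent.R852.TP.Pow

set_option autoImplicit false
set_option linter.unusedSectionVars false
set_option linter.unusedVariables false

/-! # Reduced forced roots of powers, with shifts -/

namespace Pool.Agent.T6.H56.TSW
namespace ModPOW

open MvPolynomial
open Pool.Agent.W574.SM (weyl)
open Pool.Agent.W574.HS (Seq act_pow)
open Pool.Agent.Y230.TH (kf W)

theorem coef (a c j : ℕ) (ha : 0 < a) (hc : 0 < c) (m n : ℕ) :
    (Polynomial.C (a : ℂ) * (ascPochhammer ℂ (c - 1)).comp (Polynomial.X + 1) *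
      (Polynomial.C (1 / (a : ℂ)) * (Polynomial.X - Polynomial.C (j : ℂ))) ^ m).eval (n : ℂ) *
        kf n c = (a : ℂ) / ((n : ℂ) + c) * (((n : ℂ) - j) / a) ^ m := by
  have ha0 : (a : ℂ) ≠ 0 := by exact_mod_cast ha.ne'
  have hna : (n : ℂ) + c ≠ 0 := by
    have : n + c ≠ 0 := by omega
    exact_mod_cast this
  have h1 : (ascPochhammer ℂ (c - 1)).eval ((n : ℂ) + 1) * (n.factorial : ℂ) =
      ((n + (c - 1)).factorial : ℂ) := by
    have h2 := ascPochhammer_eval_cast (S := ℂ) (c - 1) (n + 1)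
    rw [ascPochhammer_nat_eq_ascFactorial] at h2
    push_cast at h2
    rw [← h2, mul_comm]
    have h3 := Nat.factorial_mul_ascFactorial n (c - 1)
    exact_mod_cast h3
  have h2 : ((n + c).factorial : ℂ) = ((n : ℂ) + c) * ((n + (c - 1)).factorial : ℂ) := by
    have h3 : n + c = (n + (c - 1)) + 1 := by omega
    have h4 : ((n + c : ℕ) : ℂ) = (n : ℂ) + c := by push_cast; ring
    rw [h3, Nat.factorial_succ, ← h3, Nat.cast_mul, h4]
  have h3 : ((n + (c - 1)).factorial : ℂ) ≠ 0 := by
    exact_mod_cast (n + (c - 1)).factorial_ne_zero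
  unfold kf
  simp only [Polynomial.eval_mul, Polynomial.eval_C, Polynomial.eval_comp, Polynomial.eval_add,
    Polynomial.eval_sub, Polynomial.eval_X, Polynomial.eval_one, Polynomial.eval_pow]
  rw [h2]
  have h5 : (1 / (a : ℂ) * ((n : ℂ) - j)) = ((n : ℂ) - j) / a := by field_simp
  rw [h5]
  have h6 : (a : ℂ) * Polynomial.eval ((n : ℂ) + 1) (ascPochhammer ℂ (c - 1)) *
      (((n : ℂ) - j) / a) ^ m *
      ((n.factorial : ℂ) / (((n : ℂ) + c) * ((n + (c - 1)).factorial : ℂ))) =
      (a : ℂ) * (((n : ℂ) - j) / a) ^ m *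
        ((Polynomial.eval ((n : ℂ) + 1) (ascPochhammer ℂ (c - 1)) *
        (n.factorial : ℂ)) / (((n : ℂ) + c) * ((n + (c - 1)).factorial : ℂ))) := by ring
  rw [h6, h1]
  field_simp

end ModPOW

open MvPolynomial Pool.Agent.Y230.TH Pool.Agent.Y230.TL Pool.Agent.W574.SM in
/-- If `a s₀ + j` is a reduced forced root of `F`, `0 ≤ j < a`, then `s₀` is one of `F ^ a`. -/
theorem pow_shift {σ : Type} (F : MvPolynomial σ ℂ) (hF : F ≠ 0) (a j : ℕ) (hj : j < a) (s₀ : ℂ)
    (h : RF F 0 (a * s₀ + j)) : RF (F ^ a) 0 s₀ := by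
  classical
  intro B P hP
  have ha : 0 < a := by omega
  have ha0 : (a : ℂ) ≠ 0 := by exact_mod_cast ha.ne'
  obtain ⟨c, hc⟩ : ∃ c, a = j + c := ⟨a - j, by omega⟩
  have hc0 : 0 < c := by omega
  obtain ⟨K, hK⟩ := Pool.Agent.T6.H56.TSG.ModPOW.common F P.support (fun m => P m)
  obtain ⟨r, hr⟩ := hK K le_rfl
  set G : Polynomial (MvPolynomial σ ℂ) :=
    (Polynomial.X + 1) * B * Polynomial.C (F ^ K) - Polynomial.C (F ^ a) *
      ∑ m ∈ P.support, Polynomial.X ^ m *
        (r m).comp (Polynomial.C (a : MvPolynomial σ ℂ) * Polynomial.X +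
          Polynomial.C (a : MvPolynomial σ ℂ)) with hG
  have hG0 : G = 0 := by
    apply Pool.Agent.Y21.TH.poly_zero
    intro k
    have hFk : F ^ (a * k) ≠ 0 := pow_ne_zero _ hF
    apply mul_right_cancel₀ hFk
    have h2 := hP k
    rw [Finsupp.sum, smul_eq_C_mul, ← pow_mul, ← pow_mul] at h2
    have h3 : (C ((k : ℂ) + 1) : MvPolynomial σ ℂ) = (k : MvPolynomial σ ℂ) + 1 := by simp
    have h4 : F ^ K * ∑ m ∈ P.support, ((k : ℂ) ^ m) •
        (P m : Module.End ℂ (MvPolynomial σ ℂ)) (F ^ (a * (k + 1))) =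
        ∑ m ∈ P.support, (k : MvPolynomial σ ℂ) ^ m *
          ((r m).eval ((a : MvPolynomial σ ℂ) * k + a) * (F ^ a * F ^ (a * k))) := by
      rw [Finset.mul_sum]
      refine Finset.sum_congr rfl fun m hm => ?_
      have h5 := hr m hm (a * (k + 1))
      have h6 : ((a * (k + 1) : ℕ) : MvPolynomial σ ℂ) = (a : MvPolynomial σ ℂ) * k + a := by
        push_cast; ring
      have h7 : F ^ (a * (k + 1)) = F ^ a * F ^ (a * k) := by rw [← pow_add]; congr 1; ring
      have h8 : ((k : ℂ) ^ m) • (P m : Module.End ℂ (MvPolynomial σ ℂ)) (F ^ (a * (k + 1))) =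
          (k : MvPolynomial σ ℂ) ^ m *
            (P m : Module.End ℂ (MvPolynomial σ ℂ)) (F ^ (a * (k + 1))) := by
        rw [smul_eq_C_mul, map_pow, map_natCast]
      rw [h8, mul_left_comm, h5, h6, h7]
    rw [← h2, h3] at h4
    rw [hG, zero_mul]
    simp only [Polynomial.eval_sub, Polynomial.eval_mul, Polynomial.eval_add, Polynomial.eval_X,
      Polynomial.eval_one, Polynomial.eval_C, Polynomial.eval_finsetSum, Polynomial.eval_pow,
      Polynomial.eval_comp]
    have h9 : ∑ m ∈ P.support, (k : MvPolynomial σ ℂ) ^ m *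
          ((r m).eval ((a : MvPolynomial σ ℂ) * k + a) * (F ^ a * F ^ (a * k))) =
        F ^ a * (∑ m ∈ P.support, (k : MvPolynomial σ ℂ) ^ m *
          (r m).eval ((a : MvPolynomial σ ℂ) * k + a)) * F ^ (a * k) := by
      rw [Finset.mul_sum, Finset.sum_mul]
      refine Finset.sum_congr rfl fun m _ => ?_
      ring
    rw [h9] at h4
    linear_combination h4
  set B' : Polynomial (MvPolynomial σ ℂ) :=
    B.comp (Polynomial.C (C (1 / (a : ℂ))) * (Polynomial.X - Polynomial.C (C (j : ℂ)))) with hB'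
  -- the sequence
  have key : ∀ n : ℕ, (((n : ℂ) - j) / a + 1) • (B'.eval (n : MvPolynomial σ ℂ) * F ^ n) =
      ∑ m ∈ P.support, ((((n : ℂ) - j) / a) ^ m) • (F ^ j *
        (P m : Module.End ℂ (MvPolynomial σ ℂ)) (F ^ (n + c))) := by
    intro n
    apply mul_left_cancel₀ (pow_ne_zero K hF)
    have h1 := congrArg (fun p : Polynomial (MvPolynomial σ ℂ) =>
      p.eval (C (((n : ℂ) - j) / a))) hG0
    beta_reduce at h1
    rw [hG, Polynomial.eval_zero] at h1
    simp only [Polynomial.eval_sub, Polynomial.eval_mul, Polynomial.eval_add, Polynomial.eval_X,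
      Polynomial.eval_one, Polynomial.eval_C, Polynomial.eval_finsetSum, Polynomial.eval_pow,
      Polynomial.eval_comp] at h1
    have h2 : B'.eval (n : MvPolynomial σ ℂ) = B.eval (C (((n : ℂ) - j) / a)) := by
      rw [hB', Polynomial.eval_comp, Polynomial.eval_mul, Polynomial.eval_C, Polynomial.eval_sub,
        Polynomial.eval_X, Polynomial.eval_C]
      congr 1
      have h4 : (n : MvPolynomial σ ℂ) = C (n : ℂ) := by simp
      rw [h4, ← C_sub, ← C_mul]
      congr 1
      field_simp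
    have h3 : (a : MvPolynomial σ ℂ) * C (((n : ℂ) - j) / a) + (a : MvPolynomial σ ℂ) =
        ((n + c : ℕ) : MvPolynomial σ ℂ) := by
      have h4 : (a : MvPolynomial σ ℂ) = C (a : ℂ) := by simp
      have h5 : ((n + c : ℕ) : MvPolynomial σ ℂ) = C ((n + c : ℕ) : ℂ) := by simp
      have h6 : (a : ℂ) = j + c := by exact_mod_cast hc
      rw [h4, h5, ← C_mul, ← C_add]
      congr 1
      push_cast
      field_simp
      linear_combination h6
    rw [h3] at h1
    have h4 : F ^ K * ∑ m ∈ P.support, ((((n : ℂ) - j) / a) ^ m) • (F ^ j *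
        (P m : Module.End ℂ (MvPolynomial σ ℂ)) (F ^ (n + c))) =
        F ^ a * (∑ m ∈ P.support, (C (((n : ℂ) - j) / a) : MvPolynomial σ ℂ) ^ m *
          (r m).eval ((n + c : ℕ) : MvPolynomial σ ℂ)) * F ^ n := by
      rw [Finset.mul_sum, Finset.mul_sum, Finset.sum_mul]
      refine Finset.sum_congr rfl fun m hm => ?_
      have h5 := hr m hm (n + c)
      rw [smul_eq_C_mul, map_pow, mul_left_comm, mul_left_comm (F ^ K), h5, pow_add, hc, pow_add]
      ring
    rw [h4, h2, smul_eq_C_mul, C_add, C_1]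
    linear_combination F ^ n * h1
  have hW : (fun n : ℕ => B'.eval (n : MvPolynomial σ ℂ) * F ^ n) ∈ W F := by
    have h1 : (fun n : ℕ => B'.eval (n : MvPolynomial σ ℂ) * F ^ n) =
        ∑ m ∈ P.support, fun n : ℕ => ((Polynomial.C (a : ℂ) *
          (ascPochhammer ℂ (c - 1)).comp (Polynomial.X + 1) *
          (Polynomial.C (1 / (a : ℂ)) * (Polynomial.X - Polynomial.C (j : ℂ))) ^ m).eval (n : ℂ) *
            kf n c) •
          ((⟨LinearMap.mulLeft ℂ (F ^ j) * (P m : Module.End ℂ (MvPolynomial σ ℂ)),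
            Subalgebra.mul_mem _ (Pool.Agent.R852.TP.hmul _) (P m).2⟩ : weyl σ) :
              Module.End ℂ (MvPolynomial σ ℂ)) (F ^ (n + c)) := by
      funext n
      have hna : (n : ℂ) + c ≠ 0 := by
        have : n + c ≠ 0 := by omega
        exact_mod_cast this
      have h6 : (a : ℂ) = j + c := by exact_mod_cast hc
      have h5 : ((n : ℂ) - j) / a + 1 ≠ 0 := by
        intro h7
        apply hna
        field_simp at h7
        linear_combination h7 - h6
      have h2 := congrArg (fun u => (((n : ℂ) - j) / a + 1)⁻¹ • u) (key n)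
      beta_reduce at h2
      rw [smul_smul, inv_mul_cancel₀ h5, one_smul, Finset.smul_sum] at h2
      rw [h2, Finset.sum_apply]
      refine Finset.sum_congr rfl fun m _ => ?_
      rw [ModPOW.coef a c j ha hc0 m n, smul_smul]
      congr 2
      have h8 : ((n : ℂ) - j) / a + 1 = ((n : ℂ) + c) / a := by
        field_simp
        linear_combination h6
      rw [h8, inv_div]
    rw [h1]
    exact (W F).sum_mem fun m _ => Pool.Agent.T6.H56.TSG.W_poly F c hc0 _ _
  obtain ⟨P', hP'⟩ := tA F hF B' hW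
  have h1 := h B' P' hP'
  rw [hB', Polynomial.eval_comp, Polynomial.eval_mul, Polynomial.eval_C, Polynomial.eval_sub,
    Polynomial.eval_X, Polynomial.eval_C, ← C_sub, ← C_mul] at h1
  have h2 : 1 / (a : ℂ) * ((a : ℂ) * s₀ + j - j) = s₀ := by field_simp; ring
  rw [h2] at h1
  exact h1

end Pool.Agent.T6.H56.TSW
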