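import Pool.Agent.T6.H56.TSG.Gd
import Pool.Agent.T6.H56.TSW.POWS
import Pool.Agent.R852.TP.Fin

set_option autoImplicit false
set_option linter.unusedSectionVars false
set_option linter.unusedVariables false

/-! # The operations on germs and the poles of the zeta functions, with shifts by natural numbers -/

namespace Pool.Agent.T6.H56.TSW

open MvPolynomial Pool.Agent.W574.SM Pool.Agent.W574.CN Pool.Agent.W574.RO Pool.Agent.Y229
open Pool.Agent.W574.LM Pool.Agent.W574.HS Pool.Agent.T6.H56.TSG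
open Pool.Agent.Y230.TH (univFam X1_reg X1_ne X1_inv pole_of_ref ref_of_pole univFam_ne)
open Pool.Agent.Y230.TL (RF StL StU StJ Cl sf_minus_one sf_univFam locEq_single)
open Pool.Agent.R852.TL (loc_shift)
open Pool.Agent.R852.TP (pole_scale nat_div)

/-- `s - i` is a reduced forced root of `F` at the origin, for some integer `i ≥ 0`. -/
def RW {σ : Type} (F : MvPolynomial σ ℂ) (s : ℂ) : Prop := ∃ i : ℕ, RF F 0 (s - i)

theorem RF.rw {σ : Type} {F : MvPolynomial σ ℂ} {s : ℂ} (h : RF F 0 s) : RW F s :=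
  ⟨0, by rwa [Nat.cast_zero, sub_zero]⟩

/-- the conditions on the poles -/
structure PoW {σ : Type} (F : MvPolynomial σ ℂ) (Z : ℕ → RatFunc ℂ) : Prop where
  one : ∀ s, ((RatFunc.X + 1) * Z 1).denom.eval s = 0 → RW F s
  two : ∀ e, 2 ≤ e → ∀ s, (Z e).denom.eval s = 0 → RW F s

/-- the properties of the members of the class -/
structure GdW (σ : Type) (F : MvPolynomial σ ℂ) (Z : ℕ → RatFunc ℂ) : Prop where
  fin : Finite σ
  ne : F ≠ 0
  c0 : constantCoeff F = 0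
  po : PoW F Z

theorem GdW.of {σ : Type} {F : MvPolynomial σ ℂ} {Z : ℕ → RatFunc ℂ} (h : Gd σ F Z) : GdW σ F Z :=
  ⟨h.fin, h.ne, h.c0, ⟨fun s hs => RF.rw (h.po.one s hs), fun e he s hs =>
    RF.rw (h.po.two e he s hs)⟩⟩

theorem gd_univ (hU : StU) (A : Fam) (Z : RatFunc ℂ) (hfin : Finite A.σ) (hne : ∃ j, A.f j ≠ 0)
    (hp : ∀ s : ℂ, Z.denom.eval s = 0 → ∃ i : ℕ, SF A.f 0 (s - i)) :
    GdW (A.ι ⊕ A.σ) ((univFam A).f 0) (fun e => if e = 1 then Z * (RatFunc.X + 1)⁻¹ else 0) := by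
  classical
  refine ⟨inferInstance, univFam_ne A hne, ?_, ⟨fun s hs => ?_, fun e he s hs => ?_⟩⟩
  · change constantCoeff (∑ j, X (Sum.inl j) * rename Sum.inr (A.f j) :
      MvPolynomial (A.ι ⊕ A.σ) ℂ) = 0
    rw [map_sum]
    refine Finset.sum_eq_zero fun j _ => ?_
    rw [map_mul, constantCoeff_X, zero_mul]
  · beta_reduce at hs
    rw [if_pos rfl] at hs
    have e : (RatFunc.X + 1) * (Z * (RatFunc.X + 1)⁻¹) = Z := by
      have := X1_ne
      field_simp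
    rw [e] at hs
    obtain ⟨i, hi⟩ := hp s hs
    exact ⟨i, sf_univFam hU A _ hi⟩
  · beta_reduce at hs
    rw [if_neg (by omega)] at hs
    exact absurd hs (Reg_denom s _ (Reg s).zero_mem)

theorem gd_unit (hU : StmUNI) {σ : Type} (F U : MvPolynomial σ ℂ) (Z : ℕ → RatFunc ℂ)
    (hc : constantCoeff U ≠ 0) (h : GdW σ F Z) : GdW σ (U * F) Z := by
  have hU0 : U ≠ 0 := by
    rintro rfl
    exact hc (map_zero _)
  refine ⟨h.fin, mul_ne_zero hU0 h.ne, by rw [map_mul, h.c0, mul_zero],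
    ⟨fun s hs => ?_, fun e he s hs => ?_⟩⟩
  · obtain ⟨i, hi⟩ := h.po.one s hs
    exact ⟨i, hU F U h.ne hc _ hi⟩
  · obtain ⟨i, hi⟩ := h.po.two e he s hs
    exact ⟨i, hU F U h.ne hc _ hi⟩

theorem po_gen {σ : Type} {F : MvPolynomial σ ℂ} {Z : ℕ → RatFunc ℂ} (h : PoW F Z) (e : ℕ)
    (he : 1 ≤ e) (s : ℂ) (hs : s ≠ -1) (h0 : (Z e).denom.eval s = 0) : RW F s := by
  by_cases h1 : e = 1
  · subst h1
    exact h.one s ((ref_of_pole _ s h0).resolve_right hs)
  · exact h.two e (by omega) s h0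

/-- products -/
theorem gd_mul (hL : StL) (hP : StmPRO) {σ κ : Type} (F : MvPolynomial σ ℂ)
    (G : MvPolynomial κ ℂ) (Z W : ℕ → RatFunc ℂ) (h : GdW σ F Z) (h' : GdW κ G W) :
    GdW (σ ⊕ κ) (rename Sum.inl F * rename Sum.inr G) (fun e => Z e * W e) := by
  classical
  have := h.fin
  have := h'.fin
  have hr : ∀ s, RW F s ∨ RW G s →
      RW (rename Sum.inl F * rename Sum.inr G : MvPolynomial (σ ⊕ κ) ℂ) s := by
    rintro s (⟨i, hi⟩ | ⟨i, hi⟩)
    · exact ⟨i, rf_mul hL hP F G h.ne h'.ne h.c0 h'.c0 _ (Or.inl hi)⟩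
    · exact ⟨i, rf_mul hL hP F G h.ne h'.ne h.c0 h'.c0 _ (Or.inr hi)⟩
  have h1 := hP F G h.ne h'.ne h.c0 h'.c0
  refine ⟨inferInstance, ?_, ?_, ⟨fun s hs => ?_, fun e he s hs => ?_⟩⟩
  · refine mul_ne_zero ?_ ?_
    · rw [Ne, map_eq_zero_iff _ (rename_injective _ Sum.inl_injective)]
      exact h.ne
    · rw [Ne, map_eq_zero_iff _ (rename_injective _ Sum.inr_injective)]
      exact h'.ne
  · rw [map_mul, constantCoeff_rename, h.c0, zero_mul]
  · by_cases hs1 : s = -1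
    · rw [hs1]
      exact RF.rw h1
    by_contra hne
    have h2 : (Z 1).denom.eval s ≠ 0 := fun h0 => hne (hr s (Or.inl (po_gen h.po 1 le_rfl s hs1 h0)))
    have h3 : (W 1).denom.eval s ≠ 0 := fun h0 =>
      hne (hr s (Or.inr (po_gen h'.po 1 le_rfl s hs1 h0)))
    exact Reg_denom s _ ((Reg s).mul_mem (X1_reg s) ((Reg s).mul_mem (mem_Reg_of_denom _ _ h2)
      (mem_Reg_of_denom _ _ h3))) hs
  · by_contra hne
    have h2 : (Z e).denom.eval s ≠ 0 := fun h0 => hne (hr s (Or.inl (h.po.two e he s h0)))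
    have h3 : (W e).denom.eval s ≠ 0 := fun h0 => hne (hr s (Or.inr (h'.po.two e he s h0)))
    exact Reg_denom s _ ((Reg s).mul_mem (mem_Reg_of_denom _ _ h2)
      (mem_Reg_of_denom _ _ h3)) hs

/-- roots of powers -/
theorem rw_pow {σ : Type} (F : MvPolynomial σ ℂ) (hF : F ≠ 0) (a : ℕ) (ha : 0 < a) (s : ℂ)
    (h : RW F (a * s)) : RW (F ^ a) s := by
  obtain ⟨i, hi⟩ := h
  obtain ⟨j, hj, t, ht, h1⟩ := nat_div (i : ℂ) ((mem_natC _).2 ⟨i, rfl⟩) a ha.ne'
  obtain ⟨k, rfl⟩ := (mem_natC _).1 ht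
  refine ⟨k, pow_shift F hF a j hj _ ?_⟩
  have e : (a : ℂ) * (s - k) + j = a * s - i := by linear_combination h1
  rwa [e]

/-- powers -/
theorem gd_pow (hL : StL) {σ : Type} (F : MvPolynomial σ ℂ) (a : ℕ) (ha : 0 < a)
    (p q : ℕ → Polynomial ℂ) (hq : ∀ e, q e ≠ 0)
    (h : GdW σ F (fun e => algebraMap (Polynomial ℂ) (RatFunc ℂ) (p e) /
        algebraMap (Polynomial ℂ) (RatFunc ℂ) (q e))) :
    GdW σ (F ^ a) (fun e => algebraMap (Polynomial ℂ) (RatFunc ℂ)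
          ((p (e / Nat.gcd e a)).comp (Polynomial.C (a : ℂ) * Polynomial.X)) /
        algebraMap (Polynomial ℂ) (RatFunc ℂ)
          ((q (e / Nat.gcd e a)).comp (Polynomial.C (a : ℂ) * Polynomial.X))) := by
  classical
  have hfin := h.fin
  have haC : (a : ℂ) ≠ 0 := by exact_mod_cast ha.ne'
  have hne : F ^ a ≠ 0 := pow_ne_zero a h.ne
  -- the case `a ≥ 2`
  have key : 2 ≤ a → ∀ s : ℂ, (algebraMap (Polynomial ℂ) (RatFunc ℂ) (p 1) /
        algebraMap (Polynomial ℂ) (RatFunc ℂ) (q 1)).denom.eval (a * s) = 0 → RW (F ^ a) s := by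
    intro ha2 s hs
    by_cases h1 : (a : ℂ) * s = -1
    · have hs1 : s ≠ -1 := by
        rintro rfl
        have h2 : (a : ℂ) = 1 := by linear_combination -h1
        have h3 : a = 1 := by exact_mod_cast h2
        omega
      refine RF.rw (hL.rf_of_sf _ 0 s hs1 ?_)
      refine sf_of_local _ 0 _ (fun H b hb hH => ?_) (exists_fe _ ⟨(0 : Fin 1), hne⟩)
      have h3 := (sf_minus_one F h.ne h.c0).locEq H _
        (loc_shift F h.ne a 0 (by omega) H b hb) hH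
      rw [Polynomial.eval_comp, Polynomial.eval_mul, Polynomial.eval_sub, Polynomial.eval_C,
        Polynomial.eval_C, Polynomial.eval_X, Nat.cast_zero, sub_zero, ← h1,
        inv_mul_cancel_left₀ haC] at h3
      exact h3
    · exact rw_pow F h.ne a ha s (po_gen h.po 1 le_rfl _ h1 hs)
  refine ⟨hfin, hne, by rw [map_pow, h.c0, zero_pow ha.ne'], ⟨fun s hs => ?_, fun e he s hs => ?_⟩⟩
  · beta_reduce at hs
    rw [Nat.gcd_one_left, Nat.div_one] at hs
    by_cases ha1 : a = 1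
    · subst ha1
      rw [Nat.cast_one, map_one, one_mul, Polynomial.comp_X, Polynomial.comp_X] at hs
      rw [pow_one]
      exact h.po.one s hs
    · exact key (by omega) s (pole_scale a ha.ne' _ _ (hq 1) s (pole_of_ref _ s hs))
  · have h1 := pole_scale a ha.ne' _ _ (hq _) s hs
    have hg : 0 < Nat.gcd e a := Nat.gcd_pos_of_pos_right _ ha
    have he' : 1 ≤ e / Nat.gcd e a :=
      (Nat.one_le_div_iff hg).2 (Nat.le_of_dvd (by omega) (Nat.gcd_dvd_left e a))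
    by_cases h2 : e / Nat.gcd e a = 1
    · rw [h2] at h1
      refine key ?_ s h1
      have h3 : e = Nat.gcd e a := (Nat.div_eq_iff_eq_mul_left hg (Nat.gcd_dvd_left e a)).1 h2
        |>.trans (one_mul _)
      have h4 : Nat.gcd e a ≤ a := Nat.le_of_dvd ha (Nat.gcd_dvd_right e a)
      omega
    · exact rw_pow F h.ne a ha s (h.po.two _ (by omega) _ h1)

theorem exp_pole {σ : Type} {F : MvPolynomial σ ℂ} {Z : ℕ → RatFunc ℂ} (h : PoW F Z)
    {u : ℕ → (ℂ × ℕ →₀ ℂ)} (hu : ExpOf Z u) (e : ℕ) (he : 1 ≤ e) (p : ℂ × ℕ)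
    (hp : p ∈ (u e).support) : RW F (-p.1) := by
  by_cases h1 : e = 1
  · subst h1
    exact h.one _ (pole_of_exp _ (u 1) hu.one hu.ne p hp)
  · refine h.two e (by omega) _ ?_
    by_contra hne
    have h2 := mem_Reg_of_denom _ _ hne
    rw [hu.two e (by omega)] at h2
    have h3 := (Reg (-p.1)).neg_mem h2
    rw [neg_neg] at h3
    exact lap_pole _ p hp h3

theorem rw_sum {σ κ : Type} (F : MvPolynomial σ ℂ) (G : MvPolynomial κ ℂ) (c : ℂ) (hF : F ≠ 0)
    (hG : G ≠ 0) (hFG : Fs F G + C c * (rename Sum.inl F * rename Sum.inr G) ≠ 0)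
    (α β : ℂ) (h1 : RW F α) (h2 : RW G β) :
    RW (Fs F G + C c * (rename Sum.inl F * rename Sum.inr G)) (α + β) := by
  obtain ⟨i, hi⟩ := h1
  obtain ⟨j, hj⟩ := h2
  have h1 := rf_kap F G c hF hG hFG 0 0 _ _ hi hj
  have e : (Sum.elim 0 0 : σ ⊕ κ → ℂ) = 0 := by
    funext x
    rcases x with x | x <;> rfl
  rw [e] at h1
  refine ⟨i + j, ?_⟩
  have e' : α + β - ((i + j : ℕ) : ℂ) = α - i + (β - j) := by
    push_cast
    ring
  rwa [e']

theorem po_add {σ κ : Type} (F : MvPolynomial σ ℂ) (G : MvPolynomial κ ℂ) (c : ℂ) (hF : F ≠ 0)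
    (hG : G ≠ 0) (hFG : Fs F G + C c * (rename Sum.inl F * rename Sum.inr G) ≠ 0)
    (Z W : ℕ → RatFunc ℂ) (h : PoW F Z) (h' : PoW G W)
    (u v : ℕ → (ℂ × ℕ →₀ ℂ)) (hu : ExpOf Z u) (hv : ExpOf W v) (M : ℕ) [NeZero M] :
    PoW (Fs F G + C c * (rename Sum.inl F * rename Sum.inr G)) (sumZ M u v) := by
  classical
  -- the main step
  have key : ∀ (s : ℂ) (i j : ℕ), 1 ≤ i → 1 ≤ j →
      ¬ RW (Fs F G + C c * (rename Sum.inl F * rename Sum.inr G)) s →
      lap2 (u i) (v j) ∈ Reg s := by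
    intro s i j hi hj hs
    refine lap2_reg _ _ s fun p hp q hq hpq => hs ?_
    rw [hpq]
    exact rw_sum F G c hF hG hFG _ _ (exp_pole h hu i hi p hp) (exp_pole h' hv j hj q hq)
  have hord : ∀ θ : ZMod M × ZMod M, 1 ≤ addOrderOf θ := fun θ =>
    Nat.succ_le_of_lt (addOrderOf_pos θ)
  have hX0 : (RatFunc.X + 1 : RatFunc ℂ) ≠ 0 := X1_ne
  constructor
  · intro s hs
    by_contra hne
    refine Reg_denom s _ ?_ hs
    rw [sumZ, if_pos rfl, mul_comm, mul_assoc, inv_mul_cancel₀ hX0, mul_one]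
    exact (Reg s).sub_mem (Reg s).one_mem ((Reg s).mul_mem (X_reg s)
      (Subring.sum_mem _ fun θ _ => key s _ _ (hord θ) (hord (-θ)) hne))
  · intro e he s hs
    by_contra hne
    refine Reg_denom s _ ?_ hs
    rw [sumZ, if_neg (by omega)]
    split_ifs
    · exact (Reg s).neg_mem (Subring.sum_mem _ fun θ _ => key s _ _ (hord θ) (hord _) hne)
    · exact (Reg s).zero_mem

/-- sums -/
theorem gd_add {σ κ : Type} (F : MvPolynomial σ ℂ) (G : MvPolynomial κ ℂ) (c : ℂ)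
    (Z W : ℕ → RatFunc ℂ) (h : GdW σ F Z) (h' : GdW κ G W)
    (u v : ℕ → (ℂ × ℕ →₀ ℂ)) (hu : ExpOf Z u) (hv : ExpOf W v) (M : ℕ) [NeZero M] :
    GdW (σ ⊕ κ) (rename Sum.inl F + rename Sum.inr G +
      C c * (rename Sum.inl F * rename Sum.inr G)) (sumZ M u v) := by
  classical
  have := h.fin
  have := h'.fin
  have hne := kap_ne F G c h.ne h'.c0
  refine ⟨inferInstance, hne, ?_, po_add F G c h.ne h'.ne hne Z W h.po h'.po u v hu hv M⟩
  rw [map_add, map_add, map_mul, map_mul, constantCoeff_rename, constantCoeff_rename, h.c0,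
    h'.c0, mul_zero, mul_zero, add_zero, add_zero]

/-- more variables -/
theorem gd_ext {σ κ : Type} (hκ : Finite κ) (F : MvPolynomial σ ℂ) (Z : ℕ → RatFunc ℂ)
    (h : GdW σ F Z) : GdW (σ ⊕ κ) (rename Sum.inl F) Z := by
  have := h.fin
  refine ⟨inferInstance, ?_, ?_, ⟨fun s hs => ?_, fun e he s hs => ?_⟩⟩
  · rw [Ne, map_eq_zero_iff _ (rename_injective _ Sum.inl_injective)]
    exact h.ne
  · rw [constantCoeff_rename]
    exact h.c0
  · obtain ⟨i, hi⟩ := h.po.one s hs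
    exact ⟨i, rf_ext F _ hi⟩
  · obtain ⟨i, hi⟩ := h.po.two e he s hs
    exact ⟨i, rf_ext F _ hi⟩

theorem gd_drop (hL : StL) {σ κ : Type} (F : MvPolynomial σ ℂ) (Z : ℕ → RatFunc ℂ)
    (h : GdW (σ ⊕ κ) (rename Sum.inl F) Z) : GdW σ F Z := by
  have := h.fin
  refine ⟨Finite.of_injective (Sum.inl : σ → σ ⊕ κ) Sum.inl_injective, fun h0 => h.ne ?_, ?_,
    ⟨fun s hs => ?_, fun e he s hs => ?_⟩⟩
  · rw [h0, map_zero]
  · have h1 := h.c0
    rwa [constantCoeff_rename] at h1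
  · obtain ⟨i, hi⟩ := h.po.one s hs
    exact ⟨i, Pool.Agent.Y230.TL.rf_drop hL F _ hi⟩
  · obtain ⟨i, hi⟩ := h.po.two e he s hs
    exact ⟨i, Pool.Agent.Y230.TL.rf_drop hL F _ hi⟩

theorem gd_equiv (hL : StL) {σ κ : Type} (i : σ ≃ κ) (F : MvPolynomial σ ℂ)
    (Z : ℕ → RatFunc ℂ) (h : GdW σ F Z) : GdW κ (rename i F) Z := by
  have := h.fin
  refine ⟨Finite.of_equiv σ i, ?_, ?_, ⟨fun s hs => ?_, fun e he s hs => ?_⟩⟩
  · rw [Ne, map_eq_zero_iff _ (rename_injective _ i.injective)]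
    exact h.ne
  · rw [constantCoeff_rename]
    exact h.c0
  · obtain ⟨j, hj⟩ := h.po.one s hs
    exact ⟨j, Pool.Agent.Y230.TL.rf_equiv hL i F _ hj⟩
  · obtain ⟨j, hj⟩ := h.po.two e he s hs
    exact ⟨j, Pool.Agent.Y230.TL.rf_equiv hL i F _ hj⟩

end Pool.Agent.T6.H56.TSW
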