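import Pool.Agent.T6.H56.TSG.Asm
import Pool.Agent.T6.H56.TSW.GdW
import Pool.Agent.T6.H56.TSW.DefsW

set_option autoImplicit false
set_option linter.unusedSectionVars false
set_option linter.unusedVariables false

/-! # The induction, weak version -/

namespace Pool.Agent.T6.H56.TSW

open MvPolynomial Pool.Agent.W574.SM Pool.Agent.W574.CN Pool.Agent.W574.RO Pool.Agent.Y229
open Pool.Agent.W574.LM Pool.Agent.W574.HS
open Pool.Agent.T6.H26 Pool.Agent.T6.H56.LC Pool.Agent.T6.H56.TSG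
open Pool.Agent.Y230.TL (RF StL StU StJ Cl sf_minus_one weakHyp_cl WeakHyp RE root_of_sf)
open Pool.Agent.H628R4.TP (IsLocalBFunction)

/-- the properties of the ideals in the class -/
structure NiceW (A : Fam) (Z : RatFunc ℂ) : Prop where
  fin : Finite A.σ
  ne : ∃ j, A.f j ≠ 0
  pole : ∀ s : ℂ, Z.denom.eval s = 0 → ∃ i : ℕ, SF A.f 0 (s - i)

theorem nice_of_cl (c : Bool) (A : Fam) (Z : RatFunc ℂ) (h : Cl natC c A Z) : NiceW A Z := by
  refine ⟨h.fin, h.ne, fun s hs => ?_⟩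
  obtain ⟨t, ht, h1⟩ := h.pole s hs
  obtain ⟨i, rfl⟩ := (mem_natC _).1 ht
  exact ⟨i, h1⟩

theorem gd_holds (σ : Type) (F : MvPolynomial σ ℂ) (Z : ℕ → RatFunc ℂ) (h : HoldsW σ F Z) :
    GdW σ F Z := by
  obtain ⟨hfin, hF, h0, h⟩ := h
  obtain ⟨q, hq, hr⟩ := exists_red F hF h0
  refine ⟨hfin, hF, h0, ⟨fun s hs => ?_, fun e he s hs => ?_⟩⟩
  · obtain ⟨i, hi⟩ := (h q hq).1 s hs
    exact ⟨i, hr _ hi⟩
  · obtain ⟨i, hi⟩ := (h q hq).2 e he s hs
    exact ⟨i, hr _ hi⟩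

theorem ro_gd (O : Ops) (Id : Fam → RatFunc ℂ → Prop) (hId : ∀ A Z, Id A Z → NiceW A Z)
    (σ : Type) (F : MvPolynomial σ ℂ) (Z : ℕ → RatFunc ℂ) (h : RO Id HoldsW σ F Z) :
    GdW σ F Z := by
  induction h with
  | given σ F Z h => exact gd_holds σ F Z h
  | curve g hg h0 Z hZ hr =>
    obtain ⟨h, k, e, hh, hk, hc⟩ := hr
    have h1 : RF g 0 (-1) := O.red g h k hg e hh hk hc
    exact GdW.of (gd_curve O.hL g hg h0 Z hZ (Or.inl h1) fun _ _ => Or.inl h1)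
  | curve' g hg h0 Z hZ h1 h2 =>
    exact GdW.of (gd_curve O.hL g hg h0 Z hZ (Or.inr h1) fun e he => Or.inr (h2 e he))
  | univ A Z hA =>
    have h1 := hId A Z hA
    exact gd_univ O.hU A Z h1.fin h1.ne h1.pole
  | iso n g w d hg c c' => exact GdW.of (gd_iso O.iso n g w d hg c c')
  | var => exact GdW.of gd_var
  | unit σ F U Z hU h ih => exact gd_unit O.uni F U Z hU ih
  | mul σ κ F G Z W hF hG ihF ihG => exact gd_mul O.hL O.pro F G Z W ihF ihG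
  | pow σ F a ha p q hq h ih => exact gd_pow O.hL F a ha p q hq ih
  | add σ κ F G c Z W u v hu hv M hM hF hG ihF ihG => exact gd_add F G c Z W ihF ihG u v hu hv M
  | extend σ κ hκ F Z h ih => exact gd_ext hκ F Z ih
  | drop σ κ F Z h ih => exact gd_drop O.hL F Z ih
  | equiv σ κ i F Z h ih => exact gd_equiv O.hL i F Z ih

theorem hypOfW_cl (O : Ops) (R : (σ : Type) → MvPolynomial σ ℂ → (ℕ → RatFunc ℂ) → Prop)
    (hR : ∀ σ F Z, R σ F Z → GdW σ F Z) (A : Fam) (Z : RatFunc ℂ) (h : HypOfW R A Z) :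
    Cl natC true A Z := by
  cases h with
  | lib A Z h => exact weakHyp_cl O.hL _ _ h
  | new σ F Z h =>
    have h1 := hR σ F Z h
    have := h1.fin
    refine ⟨h1.fin, ⟨(0 : Fin 1), h1.ne⟩, fun s hs => ?_, fun _ s hs => ?_⟩
    · by_cases hs1 : s = -1
      · refine ⟨0, AddSubmonoid.zero_mem _, ?_⟩
        rw [hs1, sub_zero]
        exact sf_minus_one F h1.ne h1.c0
      · obtain ⟨i, hi⟩ := po_gen h1.po 1 le_rfl s hs1 hs
        exact ⟨i, (mem_natC _).2 ⟨i, rfl⟩, O.hL.sf_of_rf F 0 _ hi⟩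
    · obtain ⟨i, hi⟩ := h1.po.one s hs
      exact ⟨i, (mem_natC _).2 ⟨i, rfl⟩, fun _ => hi⟩

theorem weakS_D (A : Fam) (Z : RatFunc ℂ) (h : WeakS A Z) : WeakD A Z := by
  cases h with
  | strong h =>
    cases strongS_D A Z h with
    | lib h => exact WeakD.lib _ _ (Pool.Agent.R852.TL.WeakL.strong A Z h)
    | det h => exact WeakD.det A Z h
  | weak hfin h => exact WeakD.lib _ _ (Pool.Agent.R852.TL.WeakL.weak A Z hfin h)

theorem idW_nice (O : Ops) : ∀ (n : ℕ) (A : Fam) (Z : RatFunc ℂ), IdW n A Z → NiceW A Z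
  | 0 => fun A Z ⟨k, c, h⟩ => nice_of_cl c A Z
    (tw_closure O.hJ O.hU O.hL natC natC_countable Pool.Agent.R852.TP.nat_div WeakS WeakHyp
      (fun A Z h => weakD_at A Z (weakS_D A Z h)) (weakHyp_cl O.hL) k c A Z h)
  | n + 1 => fun A Z ⟨k, c, h⟩ => nice_of_cl c A Z
    (tw_closure O.hJ O.hU O.hL natC natC_countable Pool.Agent.R852.TP.nat_div WeakS
      (HypOfW (RO (IdW n) HoldsW)) (fun A Z h => weakD_at A Z (weakS_D A Z h))
      (hypOfW_cl O _ (fun σ F Z h => ro_gd O (IdW n) (idW_nice O n) σ F Z h)) k c A Z h)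

/-- **The weak conjecture for the hypersurfaces in the class.** -/
theorem ro_weak (O : Ops) (n : ℕ) (σ : Type) (F : MvPolynomial σ ℂ) (Z : ℕ → RatFunc ℂ)
    (h : RO (IdW n) HoldsW σ F Z) (b : Polynomial ℂ) (hb : IsLocalBFunction F b) :
    (∀ e, 1 ≤ e → ∀ s₀ : ℂ, (Z e).denom.eval s₀ = 0 → ∃ i : ℕ, b.eval (s₀ - i) = 0) ∧
    ∃ q : Polynomial ℂ, b = (Polynomial.X + 1) * q ∧
      (∀ s₀ : ℂ, ((RatFunc.X + 1) * Z 1).denom.eval s₀ = 0 → ∃ i : ℕ, q.eval (s₀ - i) = 0) ∧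
      ∀ e, 2 ≤ e → ∀ s₀ : ℂ, (Z e).denom.eval s₀ = 0 → ∃ i : ℕ, q.eval (s₀ - i) = 0 := by
  classical
  have h1 := ro_gd O (IdW n) (idW_nice O n) σ F Z h
  have hfin := h1.fin
  have hm : b.eval (-1) = 0 :=
    root_of_sf h1.fin F h1.ne (-1) (sf_minus_one F h1.ne h1.c0) b hb
  obtain ⟨q, hq⟩ : (Polynomial.X + 1 : Polynomial ℂ) ∣ b := by
    have h2 := Polynomial.dvd_iff_isRoot.2 (show b.IsRoot (-1) from hm)
    rwa [map_neg, map_one, sub_neg_eq_add] at h2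
  subst hq
  refine ⟨fun e he s hs => ?_, q, rfl, fun s hs => ?_, fun e he s hs => ?_⟩
  · by_cases hs1 : s = -1
    · refine ⟨0, ?_⟩
      rw [hs1, Nat.cast_zero, sub_zero]
      exact hm
    · obtain ⟨i, hi⟩ := po_gen h1.po e he s hs1 hs
      refine ⟨i, ?_⟩
      rw [Polynomial.eval_mul, red_root h1.fin F h1.ne _ hi q hb, mul_zero]
  · obtain ⟨i, hi⟩ := h1.po.one s hs
    exact ⟨i, red_root h1.fin F h1.ne _ hi q hb⟩
  · obtain ⟨i, hi⟩ := h1.po.two e he s hs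
    exact ⟨i, red_root h1.fin F h1.ne _ hi q hb⟩

end Pool.Agent.T6.H56.TSW
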